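import Pool.Agent.H21.Prof6

/-!
MP_eed1a0_lc: there is no search-to-profile reduction, already for `k = 2` and `m = 1`, even for
arbitrary computable randomized algorithms.
-/

namespace Pool.Agent.Results.MP_eed1a0_lc.NoSearch

open Pool.Agent.H21.Prof

/-- For every optimal decompressor `U`, every computable injective pairing `pr`, every computable
algorithm `A` (its input: the total length `n`, the strings `x₁, x₂`, the exact profile of
`(x₁, x₂, y)`, and a random string of length `ρ n`, where `ρ` is computable), all constants `c` and
`δ > 0` and every `N`, there are strings `x₁, x₂, y` of total length `n ≥ N` such that the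
probability, over uniformly random bits, that `A` outputs a string `y'` with the profile of
`(x₁, x₂, y')` within `c log n` of that of `(x₁, x₂, y)` in all seven coordinates is less than
`δ`. -/
theorem result (U : List Bool →. List Bool) (hU : Optimal U)
    (pr : List Bool → List Bool → List Bool) (hpr : Computable₂ pr)
    (hinj : ∀ a b a' b', pr a b = pr a' b' → a = a' ∧ b = b')
    (A : ℕ × List Bool × List Bool × Profile × List Bool → List Bool) (hA : Computable A)
    (ρ : ℕ → ℕ) (hρ : Computable ρ) (c δ : ℝ) (hδ : 0 < δ) (N : ℕ) :
    ∃ (x₁ x₂ y : List Bool) (n : ℕ), n = x₁.length + x₂.length + y.length ∧ N ≤ n ∧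
      prob (ρ n) (fun r =>
        Close c n (profile U pr x₁ x₂ (A (n, x₁, x₂, profile U pr x₁ x₂ y, r)))
          (profile U pr x₁ x₂ y)) < δ := by
  classical
  by_contra hcon
  push Not at hcon
  refine main hU hpr hinj hA hρ c δ hδ N ?_
  intro x1 x2 y n hn hN S hS
  have h := hcon x1 x2 y n hn hN
  unfold prob at h
  rw [le_div_iff₀ (by positivity)] at h
  have hc : Nat.card {r : Fin (ρ n) → Bool // Close c n (profile U pr x1 x2
      (A (n, x1, x2, profile U pr x1 x2 y, List.ofFn r))) (profile U pr x1 x2 y)} = S.card := by
    refine (Nat.card_congr (Equiv.subtypeEquivRight fun r => (hS r).symm)).trans ?_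
    rw [Nat.card_eq_fintype_card, Fintype.card_coe]
  rw [← hc]
  exact h

end Pool.Agent.Results.MP_eed1a0_lc.NoSearch
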